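import Mathlib
import Pool.Agent.W38.AH

set_option autoImplicit false

/-!
Heights of the affine neighbours of almost all odd integers.

Author: helper38.
-/

namespace Pool.Agent.Results.MP_2b866c_nt.HeightNeighbours

open Filter Topology

/-- `C(m) = (3m+1)/2^e(m)`, `2^e(m)` the largest power of `2` dividing `3m+1` -/
def C (m : ℕ) : ℕ := (3 * m + 1) / 2 ^ padicValNat 2 (3 * m + 1)

/-- the height `h(m)`, the least `k ≥ 1` with `C^k(m) = 1`, and `⊤ = ∞` if there is none -/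
noncomputable def height (m : ℕ) : ℕ∞ := sInf {k : ℕ∞ | ∃ j : ℕ, 1 ≤ j ∧ C^[j] m = 1 ∧ k = j}

/-- among the odd positive integers, those with the property `P` have the natural density `δ` -/
def HasOddDensity (P : ℕ → Prop) (δ : ℝ) : Prop :=
  Tendsto (fun N : ℕ => 2 / (N : ℝ) * ({m : ℕ | m ≤ N ∧ Odd m ∧ P m}.ncard : ℝ)) atTop (𝓝 δ)

/-- The scale `√ (log n) / (log log n) ^ 16`. -/
noncomputable def κ (n : ℕ) : ℝ := √ (Real.log n) / (Real.log (Real.log n)) ^ 16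

/-- The integers `n` and `m` are linked by the exponents `a, b, a', b'`: all the exponents are `≤ κ n`
and `|2^a 3^b m - 2^a' 3^b' n| ≤ exp (κ n)`. -/
def Linked (n m a b a' b' : ℕ) : Prop :=
  (a : ℝ) ≤ κ n ∧ (b : ℝ) ≤ κ n ∧ (a' : ℝ) ≤ κ n ∧ (b' : ℝ) ≤ κ n ∧
    |((2 ^ a * 3 ^ b * (m : ℤ) - 2 ^ a' * 3 ^ b' * (n : ℤ) : ℤ) : ℝ)| ≤ Real.exp (κ n)

open Pool.Agent.H499R2.ND in
theorem height_eq {m h : ℕ} (hh : IsHt m h) : height m = h := by
  unfold height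
  apply le_antisymm
  · exact sInf_le ⟨h, hh.1, hh.2.1, rfl⟩
  · refine le_sInf ?_
    rintro k ⟨j, hj, hj1, rfl⟩
    have : h ≤ j := by
      by_contra hlt
      exact hh.2.2 j hj (by omega) hj1
    exact_mod_cast this

open Pool.Agent.H499R2.ND in
theorem exists_isHt {m j : ℕ} (hj : 1 ≤ j) (h : C^[j] m = 1) : ∃ h, IsHt m h := by
  classical
  have hex : ∃ k, 1 ≤ k ∧ C^[k] m = 1 := ⟨j, hj, h⟩
  refine ⟨Nat.find hex, (Nat.find_spec hex).1, (Nat.find_spec hex).2, fun k hk hlt hk1 => ?_⟩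
  exact Nat.find_min hex hlt ⟨hk, hk1⟩

open Pool.Agent.H499R2.ND in
theorem height_top {m : ℕ} (hh : ¬ ∃ h, IsHt m h) : height m = ⊤ := by
  unfold height
  have : {k : ℕ∞ | ∃ j : ℕ, 1 ≤ j ∧ C^[j] m = 1 ∧ k = j} = ∅ := by
    rw [Set.eq_empty_iff_forall_notMem]
    rintro k ⟨j, hj, hj1, _⟩
    exact hh (exists_isHt hj hj1)
  rw [this, sInf_empty]

open Pool.Agent.H499R2.ND in
theorem odd_density_of {P : ℕ → Prop} {δ : ℝ} (h : Dn (fun m => m % 2 = 1 ∧ P m) (δ / 2)) :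
    HasOddDensity P δ := by
  unfold HasOddDensity
  have h1 := h.const_mul 2
  rw [mul_div_cancel₀ δ (by norm_num : (2 : ℝ) ≠ 0)] at h1
  refine h1.congr fun N => ?_
  have e : {m : ℕ | 1 ≤ m ∧ m ≤ N ∧ m % 2 = 1 ∧ P m} = {m : ℕ | m ≤ N ∧ Odd m ∧ P m} := by
    ext m
    constructor
    · rintro ⟨g1, g2, g3, g4⟩
      exact ⟨g2, Nat.odd_iff.2 g3, g4⟩
    · rintro ⟨g2, g3, g4⟩
      exact ⟨g3.pos, g2, Nat.odd_iff.1 g3, g4⟩
  unfold cnt
  rw [e]
  ring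

/-- For almost all odd `n` (natural density one among the odd positive integers) all the odd integers
`m` with `|2^a 3^b m - 2^a' 3^b' n| ≤ exp (κ n)` for some exponents `a, b, a', b' ≤ κ n` satisfy
`h(m) + b' = h(n) + b`. -/
theorem result : HasOddDensity (fun n => ∀ m a b a' b' : ℕ, Odd m → Linked n m a b a' b' →
    height m + b' = height n + b) 1 := by
  obtain ⟨n0, hn0⟩ := Pool.Agent.W38.AF.link_data
  apply odd_density_of
  refine Pool.Agent.H499R2.CO.HD_congr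
    (Pool.Agent.H499R2.HL.HD_and (Pool.Agent.W38.AF.fwdN (Or.inl rfl))
      (Pool.Agent.H499R2.HL.HD_large (max n0 2)))
    (P := fun n => n % 2 = 1) Pool.Agent.H499R2.ND.odd_density fun n hn hE => ?_
  obtain ⟨hE, hN⟩ := hE
  obtain ⟨t, ht, hd⟩ := hn0 n ((le_max_left _ _).trans hN) hE
  have hn2 : 2 ≤ n := (le_max_right _ _).trans hN
  refine ⟨fun hodd => ⟨hodd, fun m a b a' b' hm hL => ?_⟩, fun h => h.1⟩
  obtain ⟨h1, h2, h3, h4⟩ := hd m a b a' b' ⟨hL.1, hL.2.1, hL.2.2.1, hL.2.2.2.1, hL.2.2.2.2⟩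
  have hm1 : 1 < m := lt_of_le_of_lt (Nat.one_le_two_pow) h2
  have e1 := Pool.Agent.W38.AF.ht_after (X := Pool.Agent.H499R2.ND.Tn^[t + a] n) rfl h3 (by omega) hodd
  have e2 := Pool.Agent.W38.AF.ht_after h1 h2.le hm1 (Nat.odd_iff.1 hm)
  by_cases hX : ∃ j, Pool.Agent.H499R2.HL.H j (Pool.Agent.H499R2.ND.Tn^[t + a] n)
  · obtain ⟨j, hj⟩ := hX
    rw [height_eq ((e1 _).2 ⟨j, hj, rfl⟩), height_eq ((e2 _).2 ⟨j, hj, rfl⟩)]
    have h5 := h4
    norm_cast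
    omega
  · have g1 : ¬ ∃ h, Pool.Agent.H499R2.ND.IsHt n h := by
      rintro ⟨h, hh⟩
      obtain ⟨j, hj, _⟩ := (e1 h).1 hh
      exact hX ⟨j, hj⟩
    have g2 : ¬ ∃ h, Pool.Agent.H499R2.ND.IsHt m h := by
      rintro ⟨h, hh⟩
      obtain ⟨j, hj, _⟩ := (e2 h).1 hh
      exact hX ⟨j, hj⟩
    rw [height_top g1, height_top g2, top_add, top_add]

end Pool.Agent.Results.MP_2b866c_nt.HeightNeighbours
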